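import Pool.Agent.Helper17.CW.Gam

/-!
# Commutator width of groups with `gamma_n(G')` solvable and small coinvariants
-/

open scoped commutatorElement

namespace Pool.Agent.Helper17.CW

open Pool.Agent.Helper26.CW Pool.Agent.Helper69.TR

universe u

/-- The derived series of the subgroup `N`: `der N 0 = N`, `der N (j+1) = [der N j, der N j]`. -/
def der {G : Type u} [Group G] (N : Subgroup G) : ℕ → Subgroup G
  | 0 => N
  | j + 1 => ⁅der N j, der N j⁆

section

variable {G : Type u} [Group G]

lemma der_succ (N : Subgroup G) (j : ℕ) : der N (j + 1) = ⁅der N j, der N j⁆ := rfl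

lemma der_normal (N : Subgroup G) [N.Normal] (j : ℕ) : (der N j).Normal := by
  induction j with
  | zero => exact ‹N.Normal›
  | succ j ih => rw [der_succ]; infer_instance

lemma der_map {K : Type u} [Group K] (f : G →* K) (N : Subgroup G) (j : ℕ) :
    (der N j).map f = der (N.map f) j := by
  induction j with
  | zero => rfl
  | succ j ih => rw [der_succ, der_succ, Subgroup.map_commutator, ih]

/-- The commutators of the pairs of elements of a list. -/
def cl : List G → List G
  | [] => []
  | x :: l => l.map (fun y => ⁅x, y⁆) ++ cl l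

lemma cl_length (l : List G) : (cl l).length = l.length.choose 2 := by
  induction l with
  | nil => rfl
  | cons x l ih =>
    rw [cl, List.length_append, List.length_map, ih, List.length_cons,
      Nat.choose_succ_succ' l.length 1, Nat.choose_one_right]

lemma cl_mem (l : List G) (M : Subgroup G) (hM : ∀ z ∈ cl l, z ∈ M) :
    ∀ x ∈ l, ∀ y ∈ l, ⁅x, y⁆ ∈ M := by
  induction l with
  | nil => intro x hx; simp at hx
  | cons a l ih =>
    have h1 : ∀ y ∈ l, ⁅a, y⁆ ∈ M := fun y hy =>
      hM _ (List.mem_append_left _ (List.mem_map.2 ⟨y, hy, rfl⟩))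
    have h2 := ih fun z hz => hM z (List.mem_append_right _ hz)
    intro x hx y hy
    rcases List.mem_cons.1 hx with h3 | h3
    · rcases List.mem_cons.1 hy with h4 | h4
      · rw [h3, h4, commutatorElement_self]; exact M.one_mem
      · rw [h3]; exact h1 y h4
    · rcases List.mem_cons.1 hy with h4 | h4
      · rw [h4, ← commutatorElement_inv]; exact M.inv_mem (h1 x h3)
      · exact h2 x h3 y h4

lemma derived_eq_cl (ys : List G) (hgen : Subgroup.closure {y | y ∈ ys} = ⊤) :
    derivedSeries G 1 = Subgroup.normalClosure {y | y ∈ cl ys} := by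
  have hsub : ∀ l : List G, ∀ z ∈ cl l, z ∈ derivedSeries G 1 := by
    intro l
    induction l with
    | nil => intro z hz; simp [cl] at hz
    | cons a l ih =>
      intro z hz
      rw [cl, List.mem_append] at hz
      rcases hz with hz | hz
      · obtain ⟨y, -, rfl⟩ := List.mem_map.1 hz
        exact Subgroup.commutator_mem_commutator (Subgroup.mem_top _) (Subgroup.mem_top _)
      · exact ih z hz
  apply le_antisymm
  · rw [derivedSeries_one_eq ys hgen]
    refine Subgroup.normalClosure_le_normal ?_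
    intro c hc
    simp only [List.mem_map, Set.mem_ofPred_eq] at hc
    obtain ⟨⟨x, y⟩, hxy, rfl⟩ := hc
    rw [List.pair_mem_product] at hxy
    exact cl_mem ys _ (fun z hz => Subgroup.subset_normalClosure hz) x hxy.1 y hxy.2
  · exact Subgroup.normalClosure_le_normal fun z hz => hsub ys z hz

/-- Groups in which a term of the lower central series of `G'` is abelian. -/
theorem width_ana (ys : List G) (hgen : Subgroup.closure {y | y ∈ ys} = ⊤) (n : ℕ)
    (h : ⁅gam (derivedSeries G 1) n, gam (derivedSeries G 1) n⁆ = ⊥) {g : G}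
    (hg : g ∈ derivedSeries G 1) : IsProdComm (ys.length ^ 2 + 2 * ys.length) g := by
  set A := derivedSeries G 1 with hA
  set K := ⁅A, (⊤ : Subgroup G)⁆ with hK
  have hg' : (QuotientGroup.mk g : G ⧸ K) ∈ derivedSeries (G ⧸ K) 1 := by
    rw [derivedSeries_quotient]
    exact ⟨g, hg, rfl⟩
  have h1 := isProdComm_of_mem_commutator_top (⊤ : Subgroup (G ⧸ K)) (ys.map (QuotientGroup.mk' K))
    (closure_map_top _ (QuotientGroup.mk'_surjective K) ys hgen) ?_
    (z := (QuotientGroup.mk g : G ⧸ K))
    (by rw [derivedSeries_succ, derivedSeries_zero] at hg'; exact hg')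
  · rw [List.length_map] at h1
    obtain ⟨c, a, hc, ha, rfl⟩ := exists_of_quotient _ h1
    have h2 := mod_gam_comm n A (cl ys) ys (derived_eq_cl ys hgen) hgen h ha
    refine (hc.mul h2).mono (le_of_eq ?_)
    rw [List.length_append, cl_length]
    have h3 := Nat.triangle_succ (ys.length - 1)
    rcases Nat.eq_zero_or_pos ys.length with h0 | h0
    · simp [h0]
    · have h4 : ys.length.choose 2 * 2 = ys.length * (ys.length - 1) := by
        rw [Nat.choose_two_right]
        exact Nat.div_mul_cancel (Nat.even_mul_pred_self _).two_dvd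
      obtain ⟨m, hm⟩ : ∃ m, ys.length = m + 1 := ⟨ys.length - 1, by omega⟩
      rw [hm] at h4 ⊢
      rw [Nat.add_sub_cancel] at h4
      nlinarith
  · intro r _ g s _
    obtain ⟨r, rfl⟩ := QuotientGroup.mk_surjective r
    obtain ⟨g, rfl⟩ := QuotientGroup.mk_surjective g
    have h1 : ⁅r, g⁆ ∈ A := by
      rw [hA, derivedSeries_succ, derivedSeries_zero]
      exact Subgroup.commutator_mem_commutator (Subgroup.mem_top _) (Subgroup.mem_top _)
    have h2 := mk_central A h1
    exact (comm_of_center h2 s).symm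

/-- `B` is generated by `r` of its elements, the squares of its elements and `[B, G]`. -/
def SmallCoinv (B : Subgroup G) (r : ℕ) : Prop :=
  ∃ c : Fin r → G, (∀ i, c i ∈ B) ∧
    B ≤ Subgroup.closure (Set.range c ∪ {y | ∃ a ∈ B, y = a ^ 2}) ⊔ ⁅B, (⊤ : Subgroup G)⁆

lemma SmallCoinv.map {K : Type u} [Group K] (f : G →* K) (hf : Function.Surjective f)
    {B : Subgroup G} {r : ℕ} (h : SmallCoinv B r) : SmallCoinv (B.map f) r := by
  obtain ⟨c, hc, h⟩ := h
  refine ⟨fun i => f (c i), fun i => ⟨c i, hc i, rfl⟩, ?_⟩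
  refine (Subgroup.map_mono h).trans ?_
  rw [Subgroup.map_sup, MonoidHom.map_closure, Subgroup.map_commutator,
    Subgroup.map_top_of_surjective f hf]
  refine sup_le_sup (Subgroup.closure_mono ?_) le_rfl
  rintro y ⟨x, (⟨i, rfl⟩ | ⟨a, ha, rfl⟩), rfl⟩
  · exact Or.inl ⟨i, rfl⟩
  · exact Or.inr ⟨f a, ⟨a, ha, rfl⟩, map_pow f a 2⟩

/-- One step: elements of `[R, R]`, when `[R, R]` is abelian. -/
theorem width_step (ys : List G) (hgen : Subgroup.closure {y | y ∈ ys} = ⊤) (R : Subgroup G)
    [hR : R.Normal] (r : ℕ) (h : ⁅⁅R, R⁆, ⁅R, R⁆⁆ = ⊥) (hr : SmallCoinv ⁅R, R⁆ r) {a : G}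
    (ha : a ∈ ⁅R, R⁆) : IsProdComm (r + 2 * ys.length + ys.length) a := by
  refine lift_center ⁅R, R⁆ (comm_of_commutator_eq_bot h) ys hgen ?_
  set K := ⁅⁅R, R⁆, (⊤ : Subgroup G)⁆ with hK
  obtain ⟨c, hc, hcl⟩ := hr.map (QuotientGroup.mk' K) (QuotientGroup.mk'_surjective K)
  have hcen : (⁅R, R⁆).map (QuotientGroup.mk' K) ≤ Subgroup.center (G ⧸ K) := by
    rintro _ ⟨x, hx, rfl⟩
    exact mk_central _ hx
  have htop : ⁅(⁅R, R⁆).map (QuotientGroup.mk' K), (⊤ : Subgroup (G ⧸ K))⁆ = ⊥ := by
    rw [eq_bot_iff, Subgroup.commutator_le]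
    intro x hx g _
    rw [Subgroup.mem_bot, commutatorElement_eq_one_iff_mul_comm]
    exact ((Subgroup.mem_center_iff.1 (hcen hx)) g).symm
  rw [htop, sup_bot_eq] at hcl
  have ha' : (QuotientGroup.mk a : G ⧸ K) ∈ (⁅R, R⁆).map (QuotientGroup.mk' K) := ⟨a, ha, rfl⟩
  set R' := R.map (QuotientGroup.mk' K) with hR'
  have hR'n : R'.Normal := hR.map _ (QuotientGroup.mk'_surjective K)
  have hmapR : (⁅R, R⁆).map (QuotientGroup.mk' K) = ⁅R', R'⁆ := Subgroup.map_commutator _ _ _
  have hs : Subgroup.closure {g | ∃ g₁ ∈ R', ∃ g₂ ∈ R', ⁅g₁, g₂⁆ = g} =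
      (⁅R, R⁆).map (QuotientGroup.mk' K) := by
    rw [hmapR]
    exact (Subgroup.commutator_def _ _).symm
  obtain ⟨l, hl1, hl2, b, hb, hab⟩ := exists_list_of_central _ hcen _ hs r c hc hcl ha'
  rw [hab]
  have h1 : IsProdComm r l.prod := (isProdComm_list R' l hl2).mono hl1
  refine h1.mul ?_
  rw [hmapR] at hb hcen
  have := isProdComm_sq R' (fun x hx y hy => hcen (Subgroup.commutator_mem_commutator hx hy))
    (ys.map (QuotientGroup.mk' _))
    (closure_map_top _ (QuotientGroup.mk'_surjective _) ys hgen) hb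
  rw [List.length_map] at this
  exact this

end

/-- The main induction. -/
theorem width_main (k n d : ℕ) (r : ℕ → ℕ) : ∀ (G : Type u) [Group G] (ys : List G),
    ys.length = k → Subgroup.closure {y | y ∈ ys} = ⊤ →
    der (gam (derivedSeries G 1) n) (d + 1) = ⊥ →
    (∀ j, 1 ≤ j → j < d + 1 → SmallCoinv (der (gam (derivedSeries G 1) n) j) (r j)) →
    ∀ g ∈ derivedSeries G 1,
      IsProdComm (k ^ 2 + 2 * k + ∑ j ∈ Finset.Ico 1 (d + 1), (3 * k + r j)) g := by
  induction d with
  | zero =>
    intro G _ ys hk hgen hd _ g hg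
    subst hk
    refine (width_ana ys hgen n hd hg).mono (le_of_eq ?_)
    simp
  | succ d ih =>
    intro G _ ys hk hgen hd hr g hg
    subst hk
    set N := gam (derivedSeries G 1) n with hN
    have hNn : N.Normal := gam_normal _ n
    have hAn : (der N (d + 1)).Normal := der_normal N (d + 1)
    have hBn : (der N d).Normal := der_normal N d
    have hmap : gam (derivedSeries (G ⧸ der N (d + 1)) 1) n =
        N.map (QuotientGroup.mk' (der N (d + 1))) := by
      rw [derivedSeries_quotient, ← gam_map]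
    have h1 := ih (G ⧸ der N (d + 1)) (ys.map (QuotientGroup.mk' _)) (by simp)
      (closure_map_top _ (QuotientGroup.mk'_surjective _) ys hgen)
      (by rw [hmap, ← der_map, QuotientGroup.map_mk'_self])
      (by
        intro j hj hj'
        rw [hmap, ← der_map]
        exact (hr j hj (by omega)).map _ (QuotientGroup.mk'_surjective _))
      (QuotientGroup.mk g) (by rw [derivedSeries_quotient]; exact ⟨g, hg, rfl⟩)
    obtain ⟨c, a, hc, ha, hca⟩ := exists_of_quotient _ h1
    rw [hca]
    have h2 := width_step ys hgen (der N d) (r (d + 1)) hd (hr (d + 1) (by omega) (by omega)) ha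
    refine (hc.mul h2).mono (le_of_eq ?_)
    rw [Finset.sum_Ico_succ_top (show 1 ≤ d + 1 by omega) (fun j => 3 * ys.length + r j)]
    ring

end Pool.Agent.Helper17.CW
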