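import Pool.Agent.Helper17.CW.Gen

/-!
# Commutators modulo the lower central series of a normal subgroup: main theorem
-/

open scoped commutatorElement

namespace Pool.Agent.Helper17.CW

open Pool.Agent.Helper26.CW

universe u

/-- The lower central series of the subgroup `H`: `gam H 0 = H`, `gam H (n+1) = [gam H n, H]`. -/
def gam {G : Type u} [Group G] (H : Subgroup G) : ℕ → Subgroup G
  | 0 => H
  | n + 1 => ⁅gam H n, H⁆

section

variable {G : Type u} [Group G]

lemma gam_succ (H : Subgroup G) (n : ℕ) : gam H (n + 1) = ⁅gam H n, H⁆ := rfl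

lemma gam_normal (H : Subgroup G) [H.Normal] (n : ℕ) : (gam H n).Normal := by
  induction n with
  | zero => exact ‹H.Normal›
  | succ n ih => rw [gam_succ]; infer_instance

lemma gam_le (H : Subgroup G) [H.Normal] (n : ℕ) : gam H n ≤ H := by
  induction n with
  | zero => exact le_rfl
  | succ n _ => rw [gam_succ]; exact Subgroup.commutator_le_right _ _

lemma gam_anti (H : Subgroup G) [H.Normal] (n : ℕ) : gam H (n + 1) ≤ gam H n := by
  have := gam_normal H n
  rw [gam_succ]; exact Subgroup.commutator_le_left _ _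

lemma gam_map {K : Type u} [Group K] (f : G →* K) (H : Subgroup G) (n : ℕ) :
    (gam H n).map f = gam (H.map f) n := by
  induction n with
  | zero => rfl
  | succ n ih => rw [gam_succ, gam_succ, Subgroup.map_commutator, ih]

lemma commute_of_bot {A B : Subgroup G} (h : ⁅A, B⁆ = ⊥) {a b : G} (ha : a ∈ A) (hb : b ∈ B) :
    a * b = b * a := by
  have h1 : ⁅a, b⁆ ∈ ⁅A, B⁆ := Subgroup.commutator_mem_commutator ha hb
  rw [h, Subgroup.mem_bot, commutatorElement_eq_one_iff_mul_comm] at h1
  exact h1

lemma map_normalClosure_list (K : Subgroup G) [K.Normal] (cs : List G) {H : Subgroup G}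
    (hH : H = Subgroup.normalClosure {y | y ∈ cs}) :
    H.map (QuotientGroup.mk' K) =
      Subgroup.normalClosure {y | y ∈ cs.map (QuotientGroup.mk' K)} := by
  rw [hH, Subgroup.map_normalClosure _ _ (QuotientGroup.mk'_surjective K)]
  congr 1
  ext x
  simp

end

/-- Modulo every term of the lower central series of `H`, every element of `[H, G]` is a product
`∏ [Yⱼ, cⱼ] ∏ [Xᵢ, xᵢ]`, with `Yⱼ, Xᵢ ∈ H`. -/
theorem mod_gam (n : ℕ) : ∀ (G : Type u) [Group G] (H : Subgroup G) [H.Normal] (cs xs : List G),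
    H = Subgroup.normalClosure {y | y ∈ cs} → Subgroup.closure {y | y ∈ xs} = ⊤ →
    gam H (n + 1) = ⊥ → ∀ g ∈ ⁅H, (⊤ : Subgroup G)⁆, CP H (cs ++ xs) g := by
  induction n with
  | zero =>
    intro G _ H _ cs xs hH hgen hn g hg
    have hg' := top_le_gen H xs hgen hg
    have h := CP.merge_closure H (cs ++ xs) _ ?_ hg' (CP.one H (cs ++ xs))
    · rwa [one_mul] at h
    · rintro z ⟨a, ha, y, hy, rfl⟩
      have hn' : ⁅H, H⁆ = ⊥ := hn
      exact ⟨a, ha, y, List.mem_append_right _ hy, rfl,
        fun b hb => commute_of_bot hn' (comm_mem H ha y) hb,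
        fun Y hY => commute_of_bot hn' ha (comm_mem H hY y)⟩
  | succ n ih =>
    intro G _ H hHn cs xs hH hgen hn g hg
    have hV := gam_normal H n
    have hQn := gam_normal H (n + 1)
    have hQH : ⁅gam H (n + 1), H⁆ = ⊥ := hn
    have h3 : ⁅⁅H, H⁆, gam H n⁆ = ⊥ := by
      refine Subgroup.commutator_commutator_eq_bot_of_rotate ?_ ?_
      · rw [Subgroup.commutator_comm H (gam H n)]; exact hQH
      · exact hQH
    -- the quotient
    have h4 := ih (G ⧸ gam H (n + 1)) (H.map (QuotientGroup.mk' (gam H (n + 1))))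
      (cs.map (QuotientGroup.mk' _)) (xs.map (QuotientGroup.mk' _))
      (map_normalClosure_list _ cs hH)
      (closure_map_top _ (QuotientGroup.mk'_surjective _) xs hgen)
      (by rw [← gam_map, QuotientGroup.map_mk'_self])
      (QuotientGroup.mk' _ g) (by
        rw [← Subgroup.map_top_of_surjective _ (QuotientGroup.mk'_surjective (gam H (n + 1))),
          ← Subgroup.map_commutator]
        exact ⟨g, hg, rfl⟩)
    rw [← List.map_append] at h4
    obtain ⟨p, u, hp, hu, rfl⟩ := CP.lift H _ h4
    have hu' := normal_le_gen (gam H n) H cs xs hgen hH hu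
    refine CP.merge_closure H (cs ++ xs) _ ?_ hu' hp
    have hcs : ∀ y ∈ cs, y ∈ H := by
      intro y hy
      rw [hH]
      exact Subgroup.subset_normalClosure hy
    rintro z (⟨a, ha, y, hy, rfl⟩ | ⟨a, ha, y, hy, rfl⟩)
    · refine ⟨a, gam_le H n ha, y, List.mem_append_left _ hy, rfl, fun b hb => ?_,
        fun Y hY => ?_⟩
      · exact commute_of_bot hQH (Subgroup.commutator_mem_commutator ha (hcs y hy)) hb
      · exact (commute_of_bot h3 (Subgroup.commutator_mem_commutator hY (hcs y hy)) ha).symm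
    · change a ∈ gam H (n + 1) at ha
      refine ⟨a, gam_le H (n + 1) ha, y, List.mem_append_right _ hy, rfl, fun b hb => ?_,
        fun Y hY => ?_⟩
      · exact commute_of_bot hQH (comm_mem _ ha y) hb
      · exact commute_of_bot hQH ha (comm_mem _ hY y)

/-- Modulo `[gam H n, gam H n]`. -/
theorem mod_gam_comm (n : ℕ) {G : Type u} [Group G] (H : Subgroup G) [H.Normal] (cs xs : List G)
    (hH : H = Subgroup.normalClosure {y | y ∈ cs}) (hgen : Subgroup.closure {y | y ∈ xs} = ⊤)
    (hn : ⁅gam H n, gam H n⁆ = ⊥) {g : G} (hg : g ∈ ⁅H, (⊤ : Subgroup G)⁆) :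
    IsProdComm ((cs ++ xs).length + (cs ++ xs).length) g := by
  have hV := gam_normal H n
  have hQn := gam_normal H (n + 1)
  have h4 := mod_gam n (G ⧸ gam H (n + 1)) (H.map (QuotientGroup.mk' (gam H (n + 1))))
      (cs.map (QuotientGroup.mk' _)) (xs.map (QuotientGroup.mk' _))
      (map_normalClosure_list _ cs hH)
      (closure_map_top _ (QuotientGroup.mk'_surjective _) xs hgen)
      (by rw [← gam_map, QuotientGroup.map_mk'_self])
      (QuotientGroup.mk' _ g) (by
        rw [← Subgroup.map_top_of_surjective _ (QuotientGroup.mk'_surjective (gam H (n + 1))),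
          ← Subgroup.map_commutator]
        exact ⟨g, hg, rfl⟩)
  rw [← List.map_append] at h4
  obtain ⟨p, u, hp, hu, rfl⟩ := CP.lift H _ h4
  refine hp.isProdComm.mul ?_
  have hu' := normal_le_gen (gam H n) H cs xs hgen hH hu
  have h := CP.merge_closure (gam H n) (cs ++ xs) _ ?_ hu' (CP.one _ (cs ++ xs))
  · rw [one_mul] at h
    exact h.isProdComm
  · rintro z (⟨a, ha, y, hy, rfl⟩ | ⟨a, ha, y, hy, rfl⟩)
    · exact ⟨a, ha, y, List.mem_append_left _ hy, rfl,
        fun b hb => commute_of_bot hn (comm_mem _ ha y) hb,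
        fun Y hY => commute_of_bot hn ha (comm_mem _ hY y)⟩
    · have ha' : a ∈ gam H n := gam_anti H n ha
      exact ⟨a, ha', y, List.mem_append_right _ hy, rfl,
        fun b hb => commute_of_bot hn (comm_mem _ ha' y) hb,
        fun Y hY => commute_of_bot hn ha' (comm_mem _ hY y)⟩

end Pool.Agent.Helper17.CW
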