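import Pool.Agent.Helper69.TwoRank

/-!
# Commutator width modulo the terms of the lower central series of a normal subgroup
-/

open scoped commutatorElement

namespace Pool.Agent.Helper17.CW

open Pool.Agent.Helper26.CW

universe u

section gen

variable {G : Type u} [Group G]

lemma comm_mem (R : Subgroup G) [hR : R.Normal] {r : G} (hr : r ∈ R) (g : G) : ⁅r, g⁆ ∈ R := by
  rw [commutatorElement_def, mul_assoc, mul_assoc]
  refine R.mul_mem hr ?_
  rw [← mul_assoc]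
  exact hR.conj_mem _ (R.inv_mem hr) g

/-- `[s, g] ∈ W` for all `g`, when it holds for the generators `g = x`. -/
lemma comm_mem_of_gen (Q W : Subgroup G) [hQ : Q.Normal] (xs : List G)
    (hgen : Subgroup.closure {y | y ∈ xs} = ⊤) (h : ∀ s ∈ Q, ∀ x ∈ xs, ⁅s, x⁆ ∈ W) :
    ∀ g : G, ∀ s ∈ Q, ⁅s, g⁆ ∈ W := by
  intro g
  have hg : g ∈ Subgroup.closure {y | y ∈ xs} := hgen ▸ Subgroup.mem_top g
  induction hg using Subgroup.closure_induction with
  | mem x hx => exact fun s hs => h s hs x hx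
  | one => intro s _; simp
  | mul g g' _ _ hg hg' =>
    intro s hs
    have ht : ⁅s, g'⁆ ∈ Q := comm_mem Q hs g'
    have h1 : ⁅s, g * g'⁆ = ⁅s, g⁆ * (⁅⁅s, g'⁆, g⁆⁻¹ * ⁅s, g'⁆) := by
      simp only [commutatorElement_def]; group
    rw [h1]
    exact W.mul_mem (hg s hs) (W.mul_mem (W.inv_mem (hg _ ht)) (hg' s hs))
  | inv g _ hg =>
    intro s hs
    have h1 : ⁅s, g⁻¹⁆ = ⁅g⁻¹ * s * g, g⁆⁻¹ := by
      simp only [commutatorElement_def]; group
    rw [h1]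
    refine W.inv_mem (hg _ ?_)
    simpa using hQ.conj_mem _ hs g⁻¹

/-- Generators of `[A, G]`. -/
lemma top_le_gen (A : Subgroup G) [A.Normal] (xs : List G)
    (hgen : Subgroup.closure {y | y ∈ xs} = ⊤) :
    ⁅A, (⊤ : Subgroup G)⁆ ≤ Subgroup.closure {z | ∃ a ∈ A, ∃ y ∈ xs, z = ⁅a, y⁆} := by
  rw [Subgroup.commutator_le]
  intro a ha g _
  exact comm_mem_of_gen A (Subgroup.closure {z | ∃ a ∈ A, ∃ y ∈ xs, z = ⁅a, y⁆}) xs hgen
    (fun s hs x hx => Subgroup.subset_closure ⟨s, hs, x, hx, rfl⟩) g a ha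

/-- Generators of `[V, H]`, `H` the normal closure of `cs`. -/
lemma normal_le_gen (V H : Subgroup G) [hV : V.Normal] [hHn : H.Normal] (cs xs : List G)
    (hgen : Subgroup.closure {y | y ∈ xs} = ⊤)
    (hH : H = Subgroup.normalClosure {y | y ∈ cs}) :
    ⁅V, H⁆ ≤ Subgroup.closure
      ({z | ∃ a ∈ V, ∃ y ∈ cs, z = ⁅a, y⁆} ∪ {z | ∃ a ∈ ⁅V, H⁆, ∃ y ∈ xs, z = ⁅a, y⁆}) := by
  set Q := ⁅V, H⁆ with hQ
  set W := Subgroup.closure
      ({z | ∃ a ∈ V, ∃ y ∈ cs, z = ⁅a, y⁆} ∪ {z | ∃ a ∈ Q, ∃ y ∈ xs, z = ⁅a, y⁆}) with hW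
  have hE : ∀ g : G, ∀ s ∈ Q, ⁅s, g⁆ ∈ W := comm_mem_of_gen Q W xs hgen
    (fun s hs x hx => Subgroup.subset_closure (Or.inr ⟨s, hs, x, hx, rfl⟩))
  -- conjugation preserves W ∩ Q
  have hconj : ∀ g t : G, t ∈ Q → t ∈ W → g * t * g⁻¹ ∈ W := by
    intro g t ht htW
    have h1 : g * t * g⁻¹ = ⁅t, g⁆⁻¹ * t := by
      simp only [commutatorElement_def]; group
    rw [h1]
    exact W.mul_mem (W.inv_mem (hE g t ht)) htW
  have hmemQ : ∀ v ∈ V, ∀ h ∈ H, ⁅v, h⁆ ∈ Q := fun v hv h hh =>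
    Subgroup.commutator_mem_commutator hv hh
  let D : Subgroup G :=
    { carrier := {h | h ∈ H ∧ ∀ v ∈ V, ⁅v, h⁆ ∈ W}
      mul_mem' := by
        rintro h h' ⟨hh, h1⟩ ⟨hh', h2⟩
        refine ⟨H.mul_mem hh hh', fun v hv => ?_⟩
        have h3 : ⁅v, h * h'⁆ = ⁅v, h⁆ * (h * ⁅v, h'⁆ * h⁻¹) := by
          simp only [commutatorElement_def]; group
        rw [h3]
        exact W.mul_mem (h1 v hv) (hconj _ _ (hmemQ v hv h' hh') (h2 v hv))
      one_mem' := ⟨H.one_mem, fun v _ => by simp⟩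
      inv_mem' := by
        rintro h ⟨hh, h1⟩
        refine ⟨H.inv_mem hh, fun v hv => ?_⟩
        have h3 : ⁅v, h⁻¹⁆ = ⁅h⁻¹ * v * h, h⁆⁻¹ := by
          simp only [commutatorElement_def]; group
        rw [h3]
        refine W.inv_mem (h1 _ ?_)
        simpa using hV.conj_mem _ hv h⁻¹ }
  have hDn : D.Normal := by
    constructor
    rintro h ⟨hh, h1⟩ g
    refine ⟨hHn.conj_mem _ hh g, fun v hv => ?_⟩
    have h3 : ⁅v, g * h * g⁻¹⁆ = g * ⁅g⁻¹ * v * g, h⁆ * g⁻¹ := by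
      simp only [commutatorElement_def]; group
    rw [h3]
    have hv' : g⁻¹ * v * g ∈ V := by simpa using hV.conj_mem _ hv g⁻¹
    exact hconj _ _ (hmemQ _ hv' h hh) (h1 _ hv')
  have hHD : H ≤ D := by
    conv_lhs => rw [hH]
    refine Subgroup.normalClosure_le_normal ?_
    intro c hc
    refine ⟨?_, fun v hv => Subgroup.subset_closure (Or.inl ⟨v, hv, c, hc, rfl⟩)⟩
    rw [hH]
    exact Subgroup.subset_normalClosure hc
  rw [hQ, Subgroup.commutator_le]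
  intro v hv h hh
  exact (hHD hh).2 v hv

/-- Products `∏ [aᵢ, yᵢ]` with `aᵢ ∈ A`. -/
def CP (A : Subgroup G) : List G → G → Prop
  | [], g => g = 1
  | y :: l, g => ∃ a ∈ A, ∃ p, CP A l p ∧ g = ⁅a, y⁆ * p

lemma CP.one (A : Subgroup G) (l : List G) : CP A l 1 := by
  induction l with
  | nil => rfl
  | cons y l ih => exact ⟨1, A.one_mem, 1, ih, by simp⟩

lemma CP.mem (A : Subgroup G) [A.Normal] {l : List G} {p : G} (h : CP A l p) : p ∈ A := by
  induction l generalizing p with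
  | nil => rw [show p = 1 from h]; exact A.one_mem
  | cons y l ih =>
    obtain ⟨a, ha, p, hp, rfl⟩ := h
    exact A.mul_mem (comm_mem A ha y) (ih hp)

lemma CP.isProdComm {A : Subgroup G} {l : List G} {p : G} (h : CP A l p) :
    IsProdComm l.length p := by
  induction l generalizing p with
  | nil => rw [show p = 1 from h]; exact isProdComm_zero
  | cons y l ih =>
    obtain ⟨a, ha, p, hp, rfl⟩ := h
    rw [List.length_cons, add_comm]
    exact (isProdComm_comm a y).mul (ih hp)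

/-- Merging one more commutator. -/
lemma CP.merge (A : Subgroup G) [A.Normal] {l : List G} {p : G} (h : CP A l p) {a y : G}
    (ha : a ∈ A) (hy : y ∈ l) (h1 : ∀ b ∈ A, ⁅a, y⁆ * b = b * ⁅a, y⁆)
    (h2 : ∀ Y ∈ A, a * ⁅Y, y⁆ = ⁅Y, y⁆ * a) : CP A l (p * ⁅a, y⁆) := by
  induction l generalizing p with
  | nil => simp at hy
  | cons y0 l ih =>
    obtain ⟨Y, hY, p, hp, rfl⟩ := h
    rcases List.mem_cons.1 hy with rfl | hy
    · refine ⟨a * Y, A.mul_mem ha hY, p, hp, ?_⟩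
      have h3 : ⁅a * Y, y⁆ = a * ⁅Y, y⁆ * a⁻¹ * ⁅a, y⁆ := by
        simp only [commutatorElement_def]; group
      rw [h3, h2 Y hY, mul_assoc ⁅Y, y⁆ a, mul_inv_cancel, mul_one, mul_assoc, mul_assoc,
        h1 p hp.mem]
    · exact ⟨Y, hY, p * ⁅a, y⁆, ih hp hy, by rw [mul_assoc]⟩

/-- Merging an element of a subgroup generated by good commutators. -/
lemma CP.merge_closure (A : Subgroup G) [A.Normal] (l : List G) (T : Set G)
    (hT : ∀ z ∈ T, ∃ a ∈ A, ∃ y ∈ l, z = ⁅a, y⁆ ∧ (∀ b ∈ A, ⁅a, y⁆ * b = b * ⁅a, y⁆) ∧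
      ∀ Y ∈ A, a * ⁅Y, y⁆ = ⁅Y, y⁆ * a) {u : G} (hu : u ∈ Subgroup.closure T) {p : G}
    (hp : CP A l p) : CP A l (p * u) := by
  have key : ∀ u ∈ Subgroup.closure T, (∀ p, CP A l p → CP A l (p * u)) ∧
      (∀ p, CP A l p → CP A l (p * u⁻¹)) := by
    intro u hu
    induction hu using Subgroup.closure_induction with
    | mem z hz =>
      obtain ⟨a, ha, y, hy, rfl, h1, h2⟩ := hT z hz
      refine ⟨fun p hp => hp.merge A ha hy h1 h2, fun p hp => ?_⟩
      have h3 : ⁅a, y⁆⁻¹ = ⁅a⁻¹, y⁆ := by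
        have h4 : ⁅a⁻¹, y⁆ = a⁻¹ * (⁅a, y⁆⁻¹ * a) := by
          simp only [commutatorElement_def]; group
        have h5 : ⁅a, y⁆⁻¹ * a = a * ⁅a, y⁆⁻¹ := by
          rw [inv_mul_eq_iff_eq_mul, ← mul_assoc, h1 a ha, mul_assoc, mul_inv_cancel, mul_one]
        rw [h4, h5]; group
      rw [h3]
      refine hp.merge A (A.inv_mem ha) hy ?_ ?_
      · intro b hb
        rw [← h3, inv_mul_eq_iff_eq_mul, ← mul_assoc, h1 b hb, mul_assoc, mul_inv_cancel,
          mul_one]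
      · intro Y hY
        rw [inv_mul_eq_iff_eq_mul, ← mul_assoc, h2 Y hY, mul_assoc, mul_inv_cancel, mul_one]
    | one => exact ⟨fun p hp => by simpa using hp, fun p hp => by simpa using hp⟩
    | mul u v _ _ hu hv =>
      refine ⟨fun p hp => ?_, fun p hp => ?_⟩
      · rw [← mul_assoc]; exact hv.1 _ (hu.1 _ hp)
      · rw [mul_inv_rev, ← mul_assoc]; exact hu.2 _ (hv.2 _ hp)
    | inv u _ hu => exact ⟨hu.2, fun p hp => by rw [inv_inv]; exact hu.1 p hp⟩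
  exact (key u hu).1 p hp

/-- Lifting from a quotient. -/
lemma CP.lift (A K : Subgroup G) [K.Normal] {l : List G} {g : G}
    (h : CP (A.map (QuotientGroup.mk' K)) (l.map (QuotientGroup.mk' K))
      (QuotientGroup.mk' K g)) : ∃ p u, CP A l p ∧ u ∈ K ∧ g = p * u := by
  have key : ∀ l : List G, ∀ q : G ⧸ K,
      CP (A.map (QuotientGroup.mk' K)) (l.map (QuotientGroup.mk' K)) q →
      ∃ p, CP A l p ∧ QuotientGroup.mk' K p = q := by
    intro l
    induction l with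
    | nil => intro q hq; exact ⟨1, rfl, by rw [show q = 1 from hq, map_one]⟩
    | cons y l ih =>
      intro q hq
      obtain ⟨_, ⟨a, ha, rfl⟩, q', hq', rfl⟩ := hq
      obtain ⟨p, hp, rfl⟩ := ih q' hq'
      exact ⟨⁅a, y⁆ * p, ⟨a, ha, p, hp, rfl⟩, by rw [map_mul, map_commutatorElement]⟩
  obtain ⟨p, hp, hpq⟩ := key l _ h
  refine ⟨p, p⁻¹ * g, hp, ?_, by group⟩
  rw [← QuotientGroup.eq_one_iff]
  change QuotientGroup.mk' K (p⁻¹ * g) = 1
  rw [map_mul, map_inv, hpq, inv_mul_cancel]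

end gen

end Pool.Agent.Helper17.CW
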